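import Pool.Agent.MP_32f763_nt.H80.Main

open Pool.Agent.MP_32f763_nt.H80 in
/-- The continued logarithm length sequence is not `k`-regular for any `k ≥ 2`. -/
theorem Pool.Agent.Results.MP_32f763_nt.NotRegular.result (k : ℕ) (hk : 2 ≤ k) :
    ¬ IsRegular k L :=
  main hk
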